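import Mathlib
import Pool.Agent.Helper133.CD.Stmt
import Pool.Agent.Helper133.CD.Base
import Pool.Agent.Helper133.CD.R1
import Pool.Agent.Helper133.CD.R2
import Pool.Agent.Helper133.CD.Core2
import Pool.Agent.Helper133.CD.DataEx
import Pool.Agent.Y464.AM.Transfer
import Pool.Agent.Y464.AM.Diag

set_option autoImplicit false

/-!
# Amenable C*-algebras have infinite global dimension

Every infinite-dimensional C*-algebra has `dg A > 1` and `db A > 1`. If the C*-algebra `A` is amenable (= nuclear) then
`dg A = db A = ∞`, unless every representation of `A` on a nonzero Hilbert space has a nonzero finite-dimensional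
invariant subspace; in particular `dg A = db A = ∞` if `A` has an infinite-dimensional irreducible representation. The
same holds for all unital C*-algebras which contain a unital amenable C*-algebra without finite-dimensional
representations, e.g. an infinite-dimensional simple one, and there is a criterion for Banach algebras.
-/

namespace Pool.Agent.Results.MP_1c66c9_an.AmenableAlgebras

open Filter Topology Pool.Agent.Helper133.CD

universe u

/-- The Banach algebra `E` is amenable: it has a bounded approximate diagonal, in the weak form (equivalently, a virtual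
diagonal). There are finite sums `m_j = ∑ u ⊗ v` in `E ⊗ E`, bounded in the projective norm, such that
`c m_j - m_j c → 0` and `∑ u v c → c` weakly. -/
def Amenable (E : Type) [NonUnitalNormedRing E] [NormedSpace ℂ E] : Prop :=
  ∃ (J : Type) (U : Ultrafilter J) (m : J → Finset (E × E)) (C : ℝ),
    (∀ j, ∑ p ∈ m j, ‖p.1‖ * ‖p.2‖ ≤ C) ∧
    (∀ (B : E × E → ℂ), IsBoundedBilinearMap ℂ B → ∀ c : E,
      Tendsto (fun j => ∑ p ∈ m j, (B (c * p.1, p.2) - B (p.1, p.2 * c))) U (𝓝 0)) ∧
    ∀ (ψ : E →L[ℂ] ℂ) (c : E), Tendsto (fun j => ψ ((∑ p ∈ m j, p.1 * p.2) * c)) U (𝓝 (ψ c))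

/-- The global dimension and the bidimension of `A` are infinite. -/
def InfiniteDims (A : Type) [NonUnitalNormedRing A] [NormedSpace ℂ A] [IsScalarTower ℂ A A]
    [SMulCommClass ℂ A A] [CompleteSpace A] : Prop := dg A = ⊤ ∧ db A = ⊤

/-- No nonzero finite-dimensional subspace of `K` is invariant under all the operators `T(c)`. -/
def NoFiniteSubspaces {E K : Type} [NormedAddCommGroup K] [InnerProductSpace ℂ K] (T : E → K → K) : Prop :=
  ∀ W : Submodule ℂ K, FiniteDimensional ℂ W → (∀ c, ∀ x ∈ W, T c x ∈ W) → W = ⊥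

/-- The closed subspaces of `K` which are invariant under all the operators `T(c)` are `0` and `K`. -/
def IsIrreducible {E K : Type} [NormedAddCommGroup K] [InnerProductSpace ℂ K] (T : E → K → K) : Prop :=
  ∀ W : Submodule ℂ K, IsClosed (W : Set K) → (∀ c, ∀ x ∈ W, T c x ∈ W) → W = ⊥ ∨ W = ⊤

/-- `T` is multiplicative. -/
def IsRep {A K : Type} [Mul A] (T : A → K → K) : Prop := ∀ x y v, T (x * y) v = T x (T y v)

/-- The adjoint of every operator `T(c)` is some `T(c')`. -/
def ClosedUnderAdjoints {E K : Type} [NormedAddCommGroup K] [InnerProductSpace ℂ K] (T : E → K → K) : Prop :=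
  ∀ c, ∃ c', ∀ v w, inner ℂ (T c v) w = inner ℂ v (T c' w)

/-- The operator `π(x)` applied to the vector `v`. -/
noncomputable def act {A K : Type} [NonUnitalNormedRing A] [NormedSpace ℂ A] [NormedAddCommGroup K]
    [InnerProductSpace ℂ K] (π : A →L[ℂ] (K →L[ℂ] K)) (x : A) (v : K) : K := π x v

/-- `T` is multiplicative and the adjoint of `T(a)` is `T(a*)`. -/
def IsStarRep {A K : Type} [Mul A] [Star A] [NormedAddCommGroup K] [InnerProductSpace ℂ K] (T : A → K → K) : Prop :=
  IsRep T ∧ ∀ a v w, inner ℂ (T a v) w = inner ℂ v (T (star a) w)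

/-- `f` is multiplicative. -/
def IsMul {E A : Type} [Mul E] [Mul A] (f : E → A) : Prop := ∀ x y, f (x * y) = f x * f y

/-- The operator `π(η(c))` applied to the vector `v`. -/
noncomputable def via {E A K : Type} [NonUnitalNormedRing E] [NormedSpace ℂ E] [NonUnitalNormedRing A]
    [NormedSpace ℂ A] [NormedAddCommGroup K] [InnerProductSpace ℂ K] (π : A →L[ℂ] (K →L[ℂ] K)) (η : E →L[ℂ] A)
    (c : E) (v : K) : K := act π (η c) v

/-- (0) The answer to the question: every infinite-dimensional C*-algebra has `dg A > 1` and `db A > 1`. -/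
def AboveOne : Prop := ∀ (A : Type u) [NonUnitalCStarAlgebra A], ¬ FiniteDimensional ℂ A → 1 < dg A ∧ 1 < db A

/-- (1) Amenable C*-algebras, unital or not, with a representation without finite-dimensional subrepresentations. -/
def AmenableCStar : Prop :=
  ∀ (A : Type) [NonUnitalCStarAlgebra A] (K : Type) [NormedAddCommGroup K] [InnerProductSpace ℂ K] [CompleteSpace K]
    [Nontrivial K] (π : A →L[ℂ] (K →L[ℂ] K)), IsStarRep (act π) → Amenable A → NoFiniteSubspaces (act π) →
    InfiniteDims A

/-- (2) Amenable C*-algebras with an infinite-dimensional irreducible representation. -/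
def IrreducibleReps : Prop :=
  ∀ (A : Type) [NonUnitalCStarAlgebra A] (K : Type) [NormedAddCommGroup K] [InnerProductSpace ℂ K] [CompleteSpace K]
    (π : A →L[ℂ] (K →L[ℂ] K)), IsStarRep (act π) → Amenable A → ¬ FiniteDimensional ℂ K → IsIrreducible (act π) →
    InfiniteDims A

/-- (3) Unital C*-algebras containing a unital amenable C*-algebra without unital finite-dimensional
representations. -/
def Containing : Prop :=
  ∀ (A : Type) [CStarAlgebra A] [Nontrivial A] (E : Type) [CStarAlgebra E] (_ : E →⋆ₐ[ℂ] A), Amenable E →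
    (∀ d : ℕ, 0 < d → IsEmpty (E →ₐ[ℂ] Matrix (Fin d) (Fin d) ℂ)) → InfiniteDims A

/-- (4) Unital C*-algebras containing a unital amenable simple infinite-dimensional C*-algebra. -/
def SimpleAlgebras : Prop :=
  ∀ (A : Type) [CStarAlgebra A] [Nontrivial A] (E : Type) [CStarAlgebra E] [IsSimpleRing E] (_ : E →⋆ₐ[ℂ] A),
    Amenable E → ¬ FiniteDimensional ℂ E → InfiniteDims A

/-- (5) The criterion: a bounded representation `π` of a Banach algebra `A` on a nonzero Hilbert space and a bounded
homomorphism `η` of an amenable Banach algebra `E` into `A`, such that the set of the operators `π(η(c))` is closed under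
adjoints and without nonzero finite-dimensional invariant subspaces. -/
def Criterion : Prop :=
  ∀ (A : Type) [NonUnitalNormedRing A] [NormedSpace ℂ A] [IsScalarTower ℂ A A] [SMulCommClass ℂ A A]
    [CompleteSpace A] (K : Type) [NormedAddCommGroup K] [InnerProductSpace ℂ K] [CompleteSpace K] [Nontrivial K]
    (π : A →L[ℂ] (K →L[ℂ] K)) (E : Type) [NonUnitalNormedRing E] [NormedSpace ℂ E] [IsScalarTower ℂ E E]
    [SMulCommClass ℂ E E] (η : E →L[ℂ] A), IsRep (act π) → IsMul η → Amenable E →
    ClosedUnderAdjoints (via π η) → NoFiniteSubspaces (via π η) → InfiniteDims A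

theorem amen {E : Type} [NonUnitalNormedRing E] [NormedSpace ℂ E] [IsScalarTower ℂ E E] [SMulCommClass ℂ E E]
    (h : Amenable E) : Pool.Agent.Y464.AM.IsAmen (WithLp 1 (Unitization ℂ E)) := by
  obtain ⟨J, U, m, C, h1, h2, h3⟩ := h
  exact ⟨_, _, _, _, Pool.Agent.Y464.AM.isDiag_unitization (U := U) (m := m) (C := C)
    ⟨h1, fun B c => h2 (fun p => B p.1 p.2) B.isBoundedBilinearMap c, h3⟩⟩

theorem crit : Criterion := by
  intro A _ _ _ _ _ K _ _ _ _ π E _ _ _ _ η h1 h2 h3 h4 h5
  refine Pool.Agent.Y464.AM.transfer (Pool.Agent.Y464.AM.criterion3 A K π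
    (fun x y => ContinuousLinearMap.ext fun v => h1 x y v) E (amen h3) η h2 (fun c => ?_) h5)
  obtain ⟨c', hc'⟩ := h4 c
  refine ⟨c', ?_⟩
  have h := (ContinuousLinearMap.eq_adjoint_iff (π (η c')) (π (η c))).2 fun v w => ?_
  · rw [h, ContinuousLinearMap.star_eq_adjoint]
  · have h6 := hc' w v
    have h7 := congrArg (starRingEnd ℂ) h6
    rw [inner_conj_symm, inner_conj_symm] at h7
    exact h7.symm

theorem amenableCStar : AmenableCStar := by
  intro A _ K _ _ _ _ π h1 h2 h3
  exact crit A K π A (ContinuousLinearMap.id ℂ A) h1.1 (fun _ _ => rfl) h2 (fun c => ⟨star c, h1.2 c⟩) h3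

theorem result : AboveOne.{u} ∧ AmenableCStar ∧ IrreducibleReps ∧ Containing ∧ SimpleAlgebras ∧ Criterion := by
  refine ⟨?_, amenableCStar, ?_, ?_, ?_, crit⟩
  · intro A _ hA
    obtain ⟨d⟩ := exists_data A hA
    refine ⟨?_, ?_⟩
    · by_contra h
      exact core d (lifts_of_dg_le A (not_lt.mp h))
    · by_contra h
      exact core d (lifts_of_db_le A (not_lt.mp h))
  · intro A _ K _ _ _ π h1 h2 h3 h4
    haveI : Nontrivial K := by
      by_contra h
      rw [not_nontrivial_iff_subsingleton] at h
      exact h3 inferInstance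
    refine amenableCStar A K π h1 h2 fun W hWf hWi => ?_
    haveI := hWf
    rcases h4 W W.closed_of_finiteDimensional hWi with h | h
    · exact h
    · exact absurd (by rw [h] at hWf; exact Module.Finite.equiv (Submodule.topEquiv (R := ℂ) (M := K))) h3
  · intro A _ _ E _ θ h1 h2
    exact Pool.Agent.Y464.AM.transfer (Pool.Agent.Y464.AM.containing A E (amen h1) θ h2)
  · intro A _ _ E _ _ θ h1 h2
    exact Pool.Agent.Y464.AM.transfer (Pool.Agent.Y464.AM.simple A E h2 (amen h1) θ)

end Pool.Agent.Results.MP_1c66c9_an.AmenableAlgebras
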