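import Mathlib
import Pool.Agent.Y268.GD.Ext

set_option autoImplicit false

/-!
The global dimension and the bidimension of a Banach algebra which has an infinite-dimensional
C*-algebra as a retract, or as a quotient by a topologically idempotent closed ideal, are greater
than one; in particular this holds for all infinite-dimensional C*-algebras.
-/

namespace Pool.Agent.Results.MP_1c66c9_an.IdempotentExtensions

open Pool.Agent.Helper133.CD Pool.Agent.Y268.GD

universe u

/-- `p` has a bounded multiplicative linear right inverse. -/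
def Splits {A B : Type u} [NonUnitalNormedRing A] [NormedSpace ℂ A] [NonUnitalNormedRing B]
    [NormedSpace ℂ B] (p : A →L[ℂ] B) : Prop :=
  ∃ i : B →L[ℂ] A, (∀ a b, i (a * b) = i a * i b) ∧ ∀ b, p (i b) = b

/-- `p` is surjective and the linear span of the products of two elements of its kernel is dense
in the kernel. -/
def IdempotentKernel {A B : Type u} [NonUnitalNormedRing A] [NormedSpace ℂ A]
    [NonUnitalNormedRing B] [NormedSpace ℂ B] (p : A →L[ℂ] B) : Prop :=
  Function.Surjective p ∧ ∀ x, p x = 0 → x ∈ closure
    (Submodule.span ℂ {z : A | ∃ a b, p a = 0 ∧ p b = 0 ∧ z = a * b} : Set A)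

/-- (1) The answer to Q1: `dg A > 1` and `db A > 1` for every infinite-dimensional C*-algebra `A`.
(2) The same for every Banach algebra `A` with a bounded homomorphism `p` onto an
infinite-dimensional C*-algebra `B` which splits or has a topologically idempotent kernel. -/
theorem result :
    (∀ (A : Type u) [NonUnitalCStarAlgebra A], ¬ FiniteDimensional ℂ A → 1 < dg A ∧ 1 < db A) ∧
    (∀ (A : Type u) [NonUnitalNormedRing A] [NormedSpace ℂ A] [IsScalarTower ℂ A A]
      [SMulCommClass ℂ A A] [CompleteSpace A] (B : Type u) [NonUnitalCStarAlgebra B]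
      (p : A →L[ℂ] B), ¬ FiniteDimensional ℂ B → (∀ a b, p (a * b) = p a * p b) →
        Splits p ∨ IdempotentKernel p → 1 < dg A ∧ 1 < db A) := by
  have key : ∀ (A : Type u) [NonUnitalNormedRing A] [NormedSpace ℂ A] [IsScalarTower ℂ A A]
      [SMulCommClass ℂ A A] [CompleteSpace A] (B : Type u) [NonUnitalCStarAlgebra B]
      (p : A →L[ℂ] B), ¬ FiniteDimensional ℂ B → (∀ a b, p (a * b) = p a * p b) →
        Splits p ∨ IdempotentKernel p → 1 < dg A ∧ 1 < db A := by
    intro A _ _ _ _ _ B _ p hB hp h
    obtain ⟨d⟩ := exists_data B hB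
    have hL : ¬ Lifts A := fun hL => core d (by
      rcases h with ⟨i, hi, hpi⟩ | ⟨hs, hk⟩
      · exact lifts_retract i p hi hp hpi hL
      · exact lifts_quotient p hp hs hk hL)
    exact ⟨not_le.1 fun h => hL (lifts_of_dg_le A h), not_le.1 fun h => hL (lifts_of_db_le A h)⟩
  refine ⟨fun A _ hA => key A A (ContinuousLinearMap.id ℂ A) hA (fun _ _ => rfl)
    (Or.inl ⟨ContinuousLinearMap.id ℂ A, fun _ _ => rfl, fun _ => rfl⟩), key⟩

end Pool.Agent.Results.MP_1c66c9_an.IdempotentExtensions
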